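import Mathlib
import Pool.Agent.V11185.ProgD

set_option autoImplicit false

namespace Pool.Agent.Results.MP_687188_co.Asymptotic

open Filter Topology

/-- The finite sets `A i` of integers pack into `[m] = {1, ..., m}`: there are integers `s i` such
that all the translates `s i + A i` lie in `{1, ..., m}` and are pairwise disjoint. -/
def PacksInto {k : ℕ} (A : Fin k → Finset ℤ) (m : ℕ) : Prop :=
  ∃ s : Fin k → ℤ, (∀ i, ∀ a ∈ A i, 1 ≤ s i + a ∧ s i + a ≤ m) ∧
    ∀ i j, i ≠ j → Disjoint ((A i).image fun a => s i + a) ((A j).image fun a => s j + a)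

/-- The progression `B_d = {d, 2d, ..., nd}`. -/
def B (n d : ℕ) : Finset ℤ := (Finset.Icc 1 n).image fun j : ℕ => (j : ℤ) * (d : ℤ)

/-- `M_k(n)`: the least `m` such that `B_1, ..., B_k` pack into `[m]`. -/
noncomputable def M (n k : ℕ) : ℕ := sInf {m : ℕ | PacksInto (fun i : Fin k => B n (i + 1)) m}

open Pool.Agent.V11185.Prog in
lemma pack_of {n k m : ℕ} (t : ℕ → ℕ) (h1 : ∀ d ∈ Finset.Icc 1 k, ∀ z ∈ prog n d (t d), z < m)
    (h2 : ∀ d ∈ Finset.Icc 1 k, ∀ d' ∈ Finset.Icc 1 k, d ≠ d' →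
      Disjoint (prog n d (t d)) (prog n d' (t d'))) :
    PacksInto (fun i : Fin k => B n (i + 1)) m := by
  have hmem : ∀ i : Fin k, ((i : ℕ) + 1) ∈ Finset.Icc 1 k := fun i => by
    have := i.2
    rw [Finset.mem_Icc]; omega
  have key : ∀ i : Fin k, ∀ a ∈ B n (i + 1), ∃ z ∈ prog n (i + 1) (t (i + 1)),
      ((t (i + 1) : ℤ) + 1 - ((i + 1 : ℕ) : ℤ)) + a = (z : ℤ) + 1 := by
    intro i a ha
    unfold B at ha
    rw [Finset.mem_image] at ha
    obtain ⟨j, hj, rfl⟩ := ha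
    rw [Finset.mem_Icc] at hj
    obtain ⟨v, rfl⟩ := Nat.exists_eq_add_of_le hj.1
    refine ⟨t (i + 1) + v * (i + 1), mem_prog.2 ⟨v, by omega, rfl⟩, ?_⟩
    push_cast
    ring
  refine ⟨fun i => (t (i + 1) : ℤ) + 1 - ((i + 1 : ℕ) : ℤ), ?_, ?_⟩
  · intro i a ha
    obtain ⟨z, hz, hza⟩ := key i a ha
    have := h1 _ (hmem i) z hz
    simp only
    rw [hza]
    omega
  · intro i j hij
    rw [Finset.disjoint_left]
    intro x hx hx'
    rw [Finset.mem_image] at hx hx'
    obtain ⟨a, ha, rfl⟩ := hx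
    obtain ⟨b, hb, hab⟩ := hx'
    obtain ⟨z, hz, hza⟩ := key i a ha
    obtain ⟨z', hz', hzb⟩ := key j b hb
    have hne : ((i : ℕ) + 1) ≠ ((j : ℕ) + 1) := by
      intro h
      exact hij (Fin.ext (by omega))
    have h3 := h2 _ (hmem i) _ (hmem j) hne
    have h4 : z = z' := by
      have h5 : (z : ℤ) + 1 = (z' : ℤ) + 1 := by
        rw [← hza, ← hzb]
        exact hab.symm
      omega
    subst h4
    exact Finset.disjoint_left.1 h3 hz hz'

lemma card_B {n d : ℕ} (hd : 0 < d) : (B n d).card = n := by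
  unfold B
  rw [Finset.card_image_of_injective, Nat.card_Icc, Nat.add_sub_cancel]
  intro a b h
  have hd' : (d : ℤ) ≠ 0 := by omega
  have h' : (a : ℤ) * d = (b : ℤ) * d := h
  exact_mod_cast mul_right_cancel₀ hd' h'

lemma lower {n k m : ℕ} (h : PacksInto (fun i : Fin k => B n (i + 1)) m) : n * k ≤ m := by
  classical
  obtain ⟨s, h1, h2⟩ := h
  have h3 : ((Finset.univ : Finset (Fin k)).biUnion fun i =>
      (B n (i + 1)).image fun a => s i + a) ⊆ Finset.Icc (1 : ℤ) m := by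
    intro x hx
    rw [Finset.mem_biUnion] at hx
    obtain ⟨i, -, hx⟩ := hx
    rw [Finset.mem_image] at hx
    obtain ⟨a, ha, rfl⟩ := hx
    rw [Finset.mem_Icc]
    exact h1 i a ha
  have h4 := Finset.card_le_card h3
  rw [Finset.card_biUnion (fun i _ j _ hij => h2 i j hij)] at h4
  have h5 : ∀ i : Fin k, ((B n (i + 1)).image fun a => s i + a).card = n := by
    intro i
    rw [Finset.card_image_of_injective _ (add_right_injective _), card_B (Nat.succ_pos _)]
  rw [Finset.sum_congr rfl fun i _ => h5 i, Finset.sum_const, Finset.card_univ, Fintype.card_fin,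
    smul_eq_mul, Int.card_Icc] at h4
  rw [mul_comm]
  omega

lemma M_le {n k m : ℕ} (h : PacksInto (fun i : Fin k => B n (i + 1)) m) : M n k ≤ m :=
  Nat.sInf_le h

lemma le_M {n k m : ℕ} (h : PacksInto (fun i : Fin k => B n (i + 1)) m) : n * k ≤ M n k := by
  have : M n k ∈ {m : ℕ | PacksInto (fun i : Fin k => B n (i + 1)) m} := Nat.sInf_mem ⟨m, h⟩
  exact lower this

/-- For every fixed positive integer `n`, `M_k(n) = (1 + o(1)) n k` as `k → ∞`. -/
theorem result (n : ℕ) (hn : 0 < n) :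
    Tendsto (fun k : ℕ => (M n k : ℝ) / ((n : ℝ) * (k : ℝ))) atTop (𝓝 1) := by
  rw [Metric.tendsto_atTop]
  intro ε hε
  obtain ⟨k0, hk0⟩ := Pool.Agent.V11185.Prog.upper n hn (min (ε / 2) 1) (by positivity)
    (min_le_right _ _)
  refine ⟨k0 + 1, fun k hk => ?_⟩
  obtain ⟨t, ht1, ht2⟩ := hk0 k (by omega)
  have hpack := pack_of t ht1 ht2
  have h1 := M_le hpack
  have h2 := le_M hpack
  have hn' : (0 : ℝ) < n := by exact_mod_cast hn
  have hk' : (0 : ℝ) < k := by
    have : 0 < k := by omega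
    exact_mod_cast this
  have h3 : (M n k : ℝ) ≤ n * (k + ε / 2 * k) := by
    calc (M n k : ℝ) ≤ ((n * (k + ⌊min (ε / 2) 1 * (k : ℝ)⌋₊) : ℕ) : ℝ) := by exact_mod_cast h1
      _ = n * (k + (⌊min (ε / 2) 1 * (k : ℝ)⌋₊ : ℝ)) := by push_cast; ring
      _ ≤ n * (k + ε / 2 * k) := by
        refine mul_le_mul_of_nonneg_left ?_ hn'.le
        have h4 : (⌊min (ε / 2) 1 * (k : ℝ)⌋₊ : ℝ) ≤ min (ε / 2) 1 * (k : ℝ) :=
          Nat.floor_le (by positivity)
        have h5 : min (ε / 2) 1 * (k : ℝ) ≤ ε / 2 * k :=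
          mul_le_mul_of_nonneg_right (min_le_left _ _) hk'.le
        linarith
  have h4 : (n : ℝ) * k ≤ M n k := by exact_mod_cast h2
  have h5 : 1 ≤ (M n k : ℝ) / ((n : ℝ) * (k : ℝ)) := by
    rw [le_div_iff₀ (by positivity)]; linarith
  have h6 : (M n k : ℝ) / ((n : ℝ) * (k : ℝ)) ≤ 1 + ε / 2 := by
    rw [div_le_iff₀ (by positivity)]; nlinarith
  rw [Real.dist_eq, abs_lt]
  constructor <;> linarith

end Pool.Agent.Results.MP_687188_co.Asymptotic
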